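import Pool.Agent.TH137.OS.Dm

/-! # Every density matrix of rank `r` is a uniform mixture of `r` pairwise non-parallel unit
vectors -/

set_option autoImplicit false

open scoped BigOperators Matrix ComplexOrder
open Finset Pool.Agent.H4R2

namespace Pool.Agent.TH137.OS

lemma fourier_vectors {d r : ℕ} (hr : r ≠ 0) (W : Fin d → Fin r → ℂ)
    (hW : ∀ i j, ∑ s, W s i * (starRingEnd ℂ) (W s j) = if i = j then 1 else 0)
    (lam : Fin r → ℝ) (hlam : ∀ j, 0 ≤ lam j) :
    ∃ φ : Fin r → Fin d → ℂ, (∀ k l, Gm φ k l = ∑ j : Fin r, (lam j : ℂ) * zz r k l ^ j.val) ∧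
      ∀ a b, ∑ k, φ k a * (starRingEnd ℂ) (φ k b) =
        r * ∑ j, W a j * (lam j : ℂ) * (starRingEnd ℂ) (W b j) := by
  let φ : Fin r → Fin d → ℂ := fun k s => ∑ j, W s j * (Real.sqrt (lam j) : ℂ) * Fm r j k
  have hsq : ∀ j, (Real.sqrt (lam j) : ℂ) * (Real.sqrt (lam j) : ℂ) = (lam j : ℂ) := by
    intro j
    rw [← Complex.ofReal_mul, Real.mul_self_sqrt (hlam j)]
  refine ⟨φ, ?_, ?_⟩
  · intro k l
    unfold Gm
    have h1 : ∀ p, φ k p * (starRingEnd ℂ) (φ l p) = ∑ j, ∑ i,
        ((Real.sqrt (lam j) : ℂ) * Fm r j k * ((Real.sqrt (lam i) : ℂ) * (starRingEnd ℂ) (Fm r i l))) *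
          (W p j * (starRingEnd ℂ) (W p i)) := by
      intro p
      simp only [φ]
      rw [map_sum, Finset.sum_mul_sum]
      refine Finset.sum_congr rfl fun j _ => Finset.sum_congr rfl fun i _ => ?_
      rw [map_mul, map_mul, Complex.conj_ofReal]
      ring
    simp_rw [h1]
    rw [Finset.sum_comm]
    refine Finset.sum_congr rfl fun j _ => ?_
    rw [Finset.sum_comm]
    simp_rw [← Finset.mul_sum, hW]
    simp only [mul_ite, mul_one, mul_zero, Finset.sum_ite_eq, Finset.mem_univ, if_true]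
    rw [← Fm_mul, ← hsq]
    ring
  · intro a b
    have h1 : ∀ k, φ k a * (starRingEnd ℂ) (φ k b) = ∑ j, ∑ i,
        ((W a j * (Real.sqrt (lam j) : ℂ)) * ((starRingEnd ℂ) (W b i) * (Real.sqrt (lam i) : ℂ))) *
          (Fm r j k * (starRingEnd ℂ) (Fm r i k)) := by
      intro k
      simp only [φ]
      rw [map_sum, Finset.sum_mul_sum]
      refine Finset.sum_congr rfl fun j _ => Finset.sum_congr rfl fun i _ => ?_
      rw [map_mul, map_mul, Complex.conj_ofReal]
      ring
    simp_rw [h1]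
    rw [Finset.sum_comm, Finset.mul_sum]
    refine Finset.sum_congr rfl fun j _ => ?_
    rw [Finset.sum_comm]
    simp_rw [← Finset.mul_sum, Fm_orth hr]
    simp only [mul_ite, mul_zero, Finset.sum_ite_eq, Finset.mem_univ, if_true]
    rw [← hsq j]; ring

lemma exists_exact (d : ℕ) (P : Matrix (Fin d) (Fin d) ℂ) (hP : P.PosSemidef) (htr : P.trace = 1) :
    ∃ r : ℕ, 1 ≤ r ∧ r ≤ d ∧ ∃ c : ℝ, 0 ≤ c ∧ c < 1 ∧ ∃ φ : Fin r → Fin d → ℂ,
      (∀ k, Gm φ k k = 1) ∧ (∀ k l, k ≠ l → ‖Gm φ k l‖ ≤ c) ∧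
        ∀ a b, ∑ k, φ k a * (starRingEnd ℂ) (φ k b) = r * P a b := by
  classical
  set lam0 := hP.1.eigenvalues with hlam0
  set U : Matrix (Fin d) (Fin d) ℂ := (hP.1.eigenvectorUnitary : Matrix (Fin d) (Fin d) ℂ) with hU
  have hnn : ∀ j, 0 ≤ lam0 j := fun j => hP.eigenvalues_nonneg j
  have hsum0 : ∑ j, lam0 j = 1 := by
    have := hP.1.trace_eq_sum_eigenvalues
    rw [htr] at this
    have h2 : ((∑ j, lam0 j : ℝ) : ℂ) = 1 := by
      rw [this]; push_cast; rfl
    exact_mod_cast h2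
  have hUU : ∀ i j, ∑ s, U s i * (starRingEnd ℂ) (U s j) = if i = j then 1 else 0 := by
    intro i j
    have h1 : star U * U = 1 := Unitary.coe_star_mul_self hP.1.eigenvectorUnitary
    have h2 := congrFun (congrFun h1 j) i
    rw [Matrix.mul_apply] at h2
    simp only [Matrix.star_apply, Matrix.one_apply] at h2
    rw [show (if i = j then (1 : ℂ) else 0) = if j = i then 1 else 0 by
      by_cases h : i = j
      · simp [h]
      · simp [h, Ne.symm h], ← h2]
    exact Finset.sum_congr rfl fun s _ => mul_comm _ _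
  have hspec : ∀ a b, P a b = ∑ j, U a j * (lam0 j : ℂ) * (starRingEnd ℂ) (U b j) := by
    intro a b
    have h1 := hP.1.spectral_theorem
    rw [Unitary.conjStarAlgAut_apply] at h1
    have h2 := congrFun (congrFun h1 a) b
    rw [h2, Matrix.mul_apply]
    refine Finset.sum_congr rfl fun j _ => ?_
    rw [Matrix.mul_diagonal]
    rfl
  let S : Finset (Fin d) := Finset.univ.filter (fun j => lam0 j ≠ 0)
  have hSne : S.Nonempty := by
    by_contra hne
    rw [Finset.not_nonempty_iff_eq_empty] at hne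
    have : ∑ j, lam0 j = 0 := by
      refine Finset.sum_eq_zero fun j _ => ?_
      by_contra hj
      have : j ∈ S := by simp [S, hj]
      rw [hne] at this
      exact absurd this (Finset.notMem_empty j)
    rw [hsum0] at this
    exact one_ne_zero this
  set r := S.card with hrdef
  have hr1 : 1 ≤ r := Finset.card_pos.2 hSne
  have hrd : r ≤ d := by
    have := Finset.card_le_univ S
    simpa using this
  let e : Fin r ≃ S := (S.equivFin).symm
  let W : Fin d → Fin r → ℂ := fun s j => U s (e j).1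
  let lam : Fin r → ℝ := fun j => lam0 (e j).1
  have hlampos : ∀ j, 0 < lam j := by
    intro j
    have h1 := (Finset.mem_filter.1 (e j).2).2
    exact lt_of_le_of_ne (hnn _) (Ne.symm h1)
  -- sums over `Fin r` are sums over all indices
  have hsumS : ∀ f : Fin d → ℂ, (∀ j, lam0 j = 0 → f j = 0) → ∑ j : Fin r, f (e j).1 = ∑ j, f j := by
    intro f hf
    have h1 : ∑ j : Fin r, f (e j).1 = ∑ j : S, f j.1 := Equiv.sum_comp e (fun j : S => f j.1)
    rw [h1, Finset.sum_coe_sort S f]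
    refine Finset.sum_subset (Finset.subset_univ S) fun j _ hj => ?_
    apply hf
    by_contra h
    exact hj (by simp [S, h])
  have hsum : ∑ j, lam j = 1 := by
    have h1 := hsumS (fun j => (lam0 j : ℂ)) (fun j hj => by simp [hj])
    have h2 : ((∑ j : Fin r, lam j : ℝ) : ℂ) = ((∑ j, lam0 j : ℝ) : ℂ) := by
      push_cast
      exact h1
    have h3 : ∑ j : Fin r, lam j = ∑ j, lam0 j := by exact_mod_cast h2
    rw [h3, hsum0]
  have hW : ∀ i j, ∑ s, W s i * (starRingEnd ℂ) (W s j) = if i = j then 1 else 0 := by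
    intro i j
    simp only [W]
    rw [hUU]
    by_cases h : i = j
    · simp [h]
    · rw [if_neg h, if_neg]
      intro h2
      exact h (e.injective (Subtype.ext h2))
  obtain ⟨φ, hG, hP2⟩ := fourier_vectors (by omega : r ≠ 0) W hW lam fun j => (hlampos j).le
  have hr0 : r ≠ 0 := by omega
  have hc : ∃ c : ℝ, 0 ≤ c ∧ c < 1 ∧ ∀ k l : Fin r, k ≠ l → ‖Gm φ k l‖ ≤ c := by
    rcases Nat.lt_or_ge r 2 with hr2 | hr2
    · refine ⟨0, le_rfl, one_pos, fun k l hkl => ?_⟩
      exact absurd (Fin.ext (by omega)) hkl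
    · obtain ⟨j0, _, hmin⟩ := Finset.exists_min_image (Finset.univ : Finset (Fin r)) lam
        ⟨⟨0, by omega⟩, Finset.mem_univ _⟩
      obtain ⟨c, h0, h1, h2⟩ := overlap_bound r hr2 (lam j0) (hlampos j0)
      refine ⟨c, h0, h1, fun k l hkl => ?_⟩
      rw [hG]
      exact h2 lam (fun j => hmin j (Finset.mem_univ j)) hsum k l hkl
  obtain ⟨c, hc0, hc1, hc2⟩ := hc
  refine ⟨r, hr1, hrd, c, hc0, hc1, φ, ?_, hc2, ?_⟩
  · intro k
    rw [hG, zz_self hr0]
    simp only [one_pow, mul_one]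
    exact_mod_cast hsum
  · intro a b
    rw [hP2, hspec a b]
    congr 1
    exact hsumS (fun j => U a j * (lam0 j : ℂ) * (starRingEnd ℂ) (U b j))
      (fun j hj => by simp [hj])

end Pool.Agent.TH137.OS
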