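import Pool.Agent.TH137.OS.Ghz

/-! # Every density matrix is (almost) a uniform mixture of `d` unit vectors -/

set_option autoImplicit false

open scoped BigOperators Matrix ComplexOrder
open Finset Pool.Agent.H4R2

namespace Pool.Agent.TH137.OS

noncomputable def om (d : ℕ) : ℂ := Complex.exp (2 * Real.pi * Complex.I / d)

lemma om_prim {d : ℕ} (hd : d ≠ 0) : IsPrimitiveRoot (om d) d := Complex.isPrimitiveRoot_exp d hd

lemma om_norm {d : ℕ} (hd : d ≠ 0) : ‖om d‖ = 1 := (om_prim hd).norm'_eq_one hd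

lemma om_conj {d : ℕ} (hd : d ≠ 0) : (starRingEnd ℂ) (om d) * om d = 1 := by
  rw [Complex.conj_mul', om_norm hd]; simp

/-- Fourier matrix -/
noncomputable def Fm (d : ℕ) : Matrix (Fin d) (Fin d) ℂ := fun j k => om d ^ (j.val * k.val)

/-- ratio of phases -/
noncomputable def zz (d : ℕ) (k l : Fin d) : ℂ := om d ^ k.val * (starRingEnd ℂ) (om d ^ l.val)

lemma zz_norm {d : ℕ} (hd : d ≠ 0) (k l : Fin d) : ‖zz d k l‖ = 1 := by
  unfold zz
  rw [norm_mul, RCLike.norm_conj, norm_pow, norm_pow, om_norm hd]; simp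

lemma zz_self {d : ℕ} (hd : d ≠ 0) (k : Fin d) : zz d k k = 1 := by
  unfold zz
  rw [mul_comm, Complex.conj_mul', norm_pow, om_norm hd]; simp

lemma zz_ne {d : ℕ} (hd : d ≠ 0) {k l : Fin d} (h : k ≠ l) : zz d k l ≠ 1 := by
  intro h1
  apply h
  have h2 : om d ^ k.val = om d ^ l.val := by
    have h3 : zz d k l * om d ^ l.val = om d ^ k.val := by
      unfold zz
      rw [mul_assoc, map_pow, ← mul_pow, om_conj hd, one_pow, mul_one]
    rw [← h3, h1, one_mul]
  exact Fin.ext ((om_prim hd).pow_inj k.isLt l.isLt h2)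

lemma zz_pow {d : ℕ} (hd : d ≠ 0) (k l : Fin d) : zz d k l ^ d = 1 := by
  unfold zz
  rw [mul_pow, ← map_pow, ← pow_mul, ← pow_mul, mul_comm k.val, mul_comm l.val, pow_mul, pow_mul,
    (om_prim hd).pow_eq_one]
  simp

lemma zz_re {d : ℕ} (hd : d ≠ 0) {k l : Fin d} (h : k ≠ l) : (zz d k l).re < 1 := by
  have h1 := Complex.re_le_norm (zz d k l)
  rw [zz_norm hd] at h1
  refine lt_of_le_of_ne h1 fun h2 => zz_ne hd h ?_
  have h3 : (zz d k l).re ^ 2 + (zz d k l).im ^ 2 = 1 := by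
    have := Complex.sq_norm (zz d k l)
    rw [zz_norm hd, Complex.normSq_apply] at this
    nlinarith
  rw [h2] at h3
  have h4 : (zz d k l).im = 0 := by nlinarith
  exact Complex.ext (by simpa using h2) (by simpa using h4)

lemma Fm_mul {d : ℕ} (j k l : Fin d) :
    Fm d j k * (starRingEnd ℂ) (Fm d j l) = zz d k l ^ j.val := by
  unfold Fm zz
  rw [mul_pow, ← map_pow, ← pow_mul, ← pow_mul, mul_comm k.val, mul_comm l.val]

lemma Fm_symm {d : ℕ} (j k : Fin d) : Fm d j k = Fm d k j := by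
  unfold Fm; rw [mul_comm]

lemma Fm_orth {d : ℕ} (hd : d ≠ 0) (i j : Fin d) :
    ∑ k, Fm d i k * (starRingEnd ℂ) (Fm d j k) = if i = j then (d : ℂ) else 0 := by
  have h1 : ∀ k : Fin d, Fm d i k * (starRingEnd ℂ) (Fm d j k) = zz d i j ^ k.val := by
    intro k; rw [Fm_symm i k, Fm_symm j k, Fm_mul]
  simp_rw [h1]
  rw [Fin.sum_univ_eq_sum_range (fun k => zz d i j ^ k) d]
  by_cases h : i = j
  · subst h; rw [zz_self hd]; simp
  · rw [if_neg h]
    have h2 := mul_geom_sum (zz d i j) d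
    rw [zz_pow hd, sub_self] at h2
    rcases mul_eq_zero.1 h2 with h3 | h3
    · exact absurd (sub_eq_zero.1 h3) (zz_ne hd h)
    · exact h3

/-- uniform bound for the overlaps -/
lemma overlap_bound (d : ℕ) (hd : 2 ≤ d) (δ : ℝ) (hδ : 0 < δ) :
    ∃ c : ℝ, 0 ≤ c ∧ c < 1 ∧ ∀ lam : Fin d → ℝ, (∀ j, δ ≤ lam j) → ∑ j, lam j = 1 →
      ∀ k l : Fin d, k ≠ l → ‖∑ j : Fin d, (lam j : ℂ) * zz d k l ^ j.val‖ ≤ c := by
  have hd0 : d ≠ 0 := by omega
  have hfin : ∃ η : ℝ, 0 < η ∧ ∀ k l : Fin d, k ≠ l → η ≤ 1 - (zz d k l).re := by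
    classical
    let s : Finset (Fin d × Fin d) := Finset.univ.filter (fun p => p.1 ≠ p.2)
    have hs : s.Nonempty := ⟨(⟨0, by omega⟩, ⟨1, by omega⟩), by simp [s]⟩
    obtain ⟨p, hp, hmin⟩ := Finset.exists_min_image s (fun p => 1 - (zz d p.1 p.2).re) hs
    refine ⟨1 - (zz d p.1 p.2).re, ?_, fun k l h => hmin (k, l) (by simp [s, h])⟩
    have := zz_re hd0 (Finset.mem_filter.1 hp).2
    linarith
  obtain ⟨η, hη, hη2⟩ := hfin
  refine ⟨max 0 (1 - δ ^ 2 * η), le_max_left _ _, max_lt one_pos (by nlinarith [pow_pos hδ 2]), ?_⟩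
  intro lam hlam hsum k l hkl
  refine le_trans ?_ (le_max_right _ _)
  set z := zz d k l with hz
  have hz1 : ‖z‖ = 1 := zz_norm hd0 k l
  have hre := hη2 k l hkl
  obtain ⟨e, rfl⟩ : ∃ e, d = e + 2 := ⟨d - 2, by omega⟩
  rw [Fin.sum_univ_succ, Fin.sum_univ_succ] at hsum ⊢
  have h0 := hlam 0
  have h1 := hlam (Fin.succ 0)
  have hrest : 0 ≤ ∑ i : Fin e, lam i.succ.succ :=
    Finset.sum_nonneg fun i _ => hδ.le.trans (hlam _)
  have hn2 : ‖∑ i : Fin e, (lam i.succ.succ : ℂ) * z ^ (i.succ.succ : Fin (e + 2)).val‖ ≤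
      ∑ i : Fin e, lam i.succ.succ := by
    refine (norm_sum_le _ _).trans (Finset.sum_le_sum fun i _ => ?_)
    rw [norm_mul, norm_pow, hz1, one_pow, mul_one, Complex.norm_real,
      Real.norm_of_nonneg (hδ.le.trans (hlam _))]
  set p := lam 0
  set q := lam (Fin.succ 0)
  have hpq : p + q ≤ 1 := by linarith
  have hn1 : ‖(p : ℂ) * z ^ (0 : Fin (e + 2)).val + (q : ℂ) * z ^ (Fin.succ 0 : Fin (e + 2)).val‖ ≤
      p + q - δ ^ 2 * η := by
    have e1 : (p : ℂ) * z ^ (0 : Fin (e + 2)).val + (q : ℂ) * z ^ (Fin.succ 0 : Fin (e + 2)).val =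
        (p : ℂ) + (q : ℂ) * z := by simp
    rw [e1]
    have hsq : ‖(p : ℂ) + (q : ℂ) * z‖ ^ 2 = p ^ 2 + q ^ 2 + 2 * p * q * z.re := by
      rw [Complex.sq_norm, Complex.normSq_apply]
      have h5 : z.re ^ 2 + z.im ^ 2 = 1 := by
        have := Complex.sq_norm z
        rw [hz1, Complex.normSq_apply] at this
        nlinarith
      simp only [Complex.add_re, Complex.ofReal_re, Complex.mul_re, Complex.ofReal_im, zero_mul,
        sub_zero, Complex.add_im, Complex.mul_im, add_zero, zero_add]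
      nlinarith
    have hnn := norm_nonneg ((p : ℂ) + (q : ℂ) * z)
    have hpos : 0 < p + q := by linarith
    have hle : ‖(p : ℂ) + (q : ℂ) * z‖ ≤ p + q := by
      apply abs_le_of_sq_le_sq' _ hpos.le |>.2
      rw [hsq]
      have : z.re ≤ 1 := by linarith
      nlinarith [mul_pos (lt_of_lt_of_le hδ h0) (lt_of_lt_of_le hδ h1)]
    have hkey : (p + q) ^ 2 - ‖(p : ℂ) + (q : ℂ) * z‖ ^ 2 ≥ 2 * (δ ^ 2 * η) := by
      rw [hsq]
      have h6 : δ ^ 2 ≤ p * q := by nlinarith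
      have h7 : δ ^ 2 * η ≤ p * q * (1 - z.re) := by
        apply mul_le_mul h6 hre hη.le (by nlinarith)
      nlinarith
    have hfac : (p + q) ^ 2 - ‖(p : ℂ) + (q : ℂ) * z‖ ^ 2 =
        ((p + q) - ‖(p : ℂ) + (q : ℂ) * z‖) * ((p + q) + ‖(p : ℂ) + (q : ℂ) * z‖) := by ring
    have h8 : ((p + q) - ‖(p : ℂ) + (q : ℂ) * z‖) * ((p + q) + ‖(p : ℂ) + (q : ℂ) * z‖) ≤
        ((p + q) - ‖(p : ℂ) + (q : ℂ) * z‖) * 2 :=
      mul_le_mul_of_nonneg_left (by linarith) (by linarith)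
    nlinarith
  calc _ = ‖((p : ℂ) * z ^ (0 : Fin (e + 2)).val + (q : ℂ) * z ^ (Fin.succ 0 : Fin (e + 2)).val) +
        ∑ i : Fin e, (lam i.succ.succ : ℂ) * z ^ (i.succ.succ : Fin (e + 2)).val‖ :=
        congrArg norm (add_assoc _ _ _).symm
    _ ≤ (p + q - δ ^ 2 * η) + ∑ i : Fin e, lam i.succ.succ :=
        (norm_add_le _ _).trans (add_le_add hn1 hn2)
    _ = 1 - δ ^ 2 * η := by linarith

/-- the vectors -/
lemma exists_decomp (d : ℕ) (hd : 2 ≤ d) (δ : ℝ) (hδ : 0 < δ) (hδ1 : δ ≤ 1) :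
    ∃ c : ℝ, 0 ≤ c ∧ c < 1 ∧ ∀ P : Matrix (Fin d) (Fin d) ℂ, P.PosSemidef → P.trace = 1 →
      ∃ φ : Fin d → Fin d → ℂ, (∀ k, Gm φ k k = 1) ∧ (∀ k l, k ≠ l → ‖Gm φ k l‖ ≤ c) ∧
        ∀ a b, ∑ k, φ k a * (starRingEnd ℂ) (φ k b) =
          d * ((1 - δ) * P a b + (δ / d) * (if a = b then 1 else 0)) := by
  have hd0 : d ≠ 0 := by omega
  have hdR : (0 : ℝ) < d := by exact_mod_cast (by omega : 0 < d)
  obtain ⟨c, hc0, hc1, hc⟩ := overlap_bound d hd (δ / d) (by positivity)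
  refine ⟨c, hc0, hc1, fun P hP htr => ?_⟩
  set lam0 := hP.1.eigenvalues with hlam0
  set U : Matrix (Fin d) (Fin d) ℂ := (hP.1.eigenvectorUnitary : Matrix (Fin d) (Fin d) ℂ) with hU
  let lam : Fin d → ℝ := fun j => (1 - δ) * lam0 j + δ / d
  have hlam : ∀ j, δ / d ≤ lam j := by
    intro j
    have := hP.eigenvalues_nonneg j
    have h2 : 0 ≤ (1 - δ) * lam0 j := mul_nonneg (by linarith) this
    simp only [lam]; linarith
  have hlampos : ∀ j, 0 ≤ lam j := fun j => (by positivity : (0 : ℝ) ≤ δ / d).trans (hlam j)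
  have hsum0 : ∑ j, lam0 j = 1 := by
    have := hP.1.trace_eq_sum_eigenvalues
    rw [htr] at this
    have h2 : ((∑ j, lam0 j : ℝ) : ℂ) = 1 := by
      rw [this]; push_cast; rfl
    exact_mod_cast h2
  have hsum : ∑ j, lam j = 1 := by
    simp only [lam]
    rw [Finset.sum_add_distrib, ← Finset.mul_sum, hsum0]
    simp
    field_simp
    ring
  have hUU : ∀ i j, ∑ s, U s i * (starRingEnd ℂ) (U s j) = if i = j then 1 else 0 := by
    intro i j
    have h1 : star U * U = 1 := Unitary.coe_star_mul_self hP.1.eigenvectorUnitary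
    have h2 := congrFun (congrFun h1 j) i
    rw [Matrix.mul_apply] at h2
    simp only [Matrix.star_apply, Matrix.one_apply] at h2
    rw [show (if i = j then (1 : ℂ) else 0) = if j = i then 1 else 0 by
      by_cases h : i = j
      · simp [h]
      · simp [h, Ne.symm h], ← h2]
    exact Finset.sum_congr rfl fun s _ => mul_comm _ _
  have hUU2 : ∀ a b, ∑ j, U a j * (starRingEnd ℂ) (U b j) = if a = b then 1 else 0 := by
    intro a b
    have h1 : U * star U = 1 := Unitary.coe_mul_star_self hP.1.eigenvectorUnitary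
    have h2 := congrFun (congrFun h1 a) b
    rw [Matrix.mul_apply] at h2
    simpa [Matrix.star_apply, Matrix.one_apply] using h2
  have hspec : ∀ a b, P a b = ∑ j, U a j * (lam0 j : ℂ) * (starRingEnd ℂ) (U b j) := by
    intro a b
    have h1 := hP.1.spectral_theorem
    rw [Unitary.conjStarAlgAut_apply] at h1
    have h2 := congrFun (congrFun h1 a) b
    rw [h2, Matrix.mul_apply]
    refine Finset.sum_congr rfl fun j _ => ?_
    rw [Matrix.mul_diagonal]
    rfl
  let φ : Fin d → Fin d → ℂ := fun k s => ∑ j, U s j * (Real.sqrt (lam j) : ℂ) * Fm d j k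
  have hsq : ∀ j, (Real.sqrt (lam j) : ℂ) * (Real.sqrt (lam j) : ℂ) = (lam j : ℂ) := by
    intro j
    rw [← Complex.ofReal_mul, Real.mul_self_sqrt (hlampos j)]
  have hG : ∀ k l, Gm φ k l = ∑ j : Fin d, (lam j : ℂ) * zz d k l ^ j.val := by
    intro k l
    unfold Gm
    have h1 : ∀ p, φ k p * (starRingEnd ℂ) (φ l p) = ∑ j, ∑ i,
        ((Real.sqrt (lam j) : ℂ) * Fm d j k * ((Real.sqrt (lam i) : ℂ) * (starRingEnd ℂ) (Fm d i l))) *
          (U p j * (starRingEnd ℂ) (U p i)) := by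
      intro p
      simp only [φ]
      rw [map_sum, Finset.sum_mul_sum]
      refine Finset.sum_congr rfl fun j _ => Finset.sum_congr rfl fun i _ => ?_
      rw [map_mul, map_mul, Complex.conj_ofReal]
      ring
    simp_rw [h1]
    rw [Finset.sum_comm]
    refine Finset.sum_congr rfl fun j _ => ?_
    rw [Finset.sum_comm]
    simp_rw [← Finset.mul_sum, hUU]
    simp only [mul_ite, mul_one, mul_zero, Finset.sum_ite_eq, Finset.mem_univ, if_true]
    rw [← Fm_mul, ← hsq]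
    ring
  refine ⟨φ, ?_, ?_, ?_⟩
  · intro k
    rw [hG, zz_self hd0]
    simp only [one_pow, mul_one]
    exact_mod_cast hsum
  · intro k l hkl
    rw [hG]
    exact hc lam hlam hsum k l hkl
  · intro a b
    have h1 : ∀ k, φ k a * (starRingEnd ℂ) (φ k b) = ∑ j, ∑ i,
        ((U a j * (Real.sqrt (lam j) : ℂ)) * ((starRingEnd ℂ) (U b i) * (Real.sqrt (lam i) : ℂ))) *
          (Fm d j k * (starRingEnd ℂ) (Fm d i k)) := by
      intro k
      simp only [φ]
      rw [map_sum, Finset.sum_mul_sum]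
      refine Finset.sum_congr rfl fun j _ => Finset.sum_congr rfl fun i _ => ?_
      rw [map_mul, map_mul, Complex.conj_ofReal]
      ring
    simp_rw [h1]
    rw [Finset.sum_comm]
    have h2 : ∀ j, (∑ k, ∑ i,
        ((U a j * (Real.sqrt (lam j) : ℂ)) * ((starRingEnd ℂ) (U b i) * (Real.sqrt (lam i) : ℂ))) *
          (Fm d j k * (starRingEnd ℂ) (Fm d i k))) =
        (d : ℂ) * ((1 - δ) * (U a j * (lam0 j : ℂ) * (starRingEnd ℂ) (U b j)) +
          (δ / d) * (U a j * (starRingEnd ℂ) (U b j))) := by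
      intro j
      rw [Finset.sum_comm]
      simp_rw [← Finset.mul_sum, Fm_orth hd0]
      simp only [mul_ite, mul_zero, Finset.sum_ite_eq, Finset.mem_univ, if_true]
      have h3 : (U a j * (Real.sqrt (lam j) : ℂ)) * ((starRingEnd ℂ) (U b j) *
          (Real.sqrt (lam j) : ℂ)) * (d : ℂ) = (d : ℂ) * ((lam j : ℂ) * (U a j * (starRingEnd ℂ) (U b j))) := by
        rw [← hsq j]; ring
      rw [h3]
      simp only [lam]
      push_cast
      ring
    rw [Finset.sum_congr rfl fun j _ => h2 j, ← Finset.mul_sum, Finset.sum_add_distrib,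
      ← Finset.mul_sum, ← Finset.mul_sum, ← hspec, hUU2]

end Pool.Agent.TH137.OS
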