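import Pool.Agent.H4R2.Rdm

/-! # Superpositions of product states as PEPS -/

set_option autoImplicit false

open scoped BigOperators
open Finset Pool.Agent.H4R2

namespace Pool.Agent.TH137.OS

/-- the tensor of the superposition of the product states `φ k ⊗ φ k ⊗ ...` -/
noncomputable def ghz {m d : ℕ} (φ : Fin m → Fin d → ℂ) : Tensor d m :=
  fun s l r u n => if l = r ∧ u = r ∧ n = r then φ r s else 0

lemma const_of_shift {L m : ℕ} [NeZero L] (h : Site L → Fin m)
    (h1 : ∀ x : Site L, h (x.1 - 1, x.2) = h x) (h2 : ∀ x : Site L, h (x.1, x.2 - 1) = h x)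
    (x : Site L) : h x = h (0, 0) := by
  have a1 : ∀ (n : ℕ) (y : ZMod L), h ((n : ZMod L), y) = h (0, y) := by
    intro n
    induction n with
    | zero => intro y; simp
    | succ n ih =>
      intro y
      have := h1 (((n + 1 : ℕ) : ZMod L), y)
      rw [← this, ← ih y]
      congr 2
      push_cast; ring
  have a2 : ∀ (n : ℕ) (y : ZMod L), h (y, (n : ZMod L)) = h (y, 0) := by
    intro n
    induction n with
    | zero => intro y; simp
    | succ n ih =>
      intro y
      have := h2 (y, ((n + 1 : ℕ) : ZMod L))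
      rw [← this, ← ih y]
      congr 2
      push_cast; ring
  obtain ⟨x1, x2⟩ := x
  have e1 := a1 x1.val x2
  have e2 := a2 x2.val 0
  rw [ZMod.natCast_zmod_val] at e1 e2
  rw [e1, e2]

lemma contract_ghz {m d L : ℕ} [NeZero L] (φ : Fin m → Fin d → ℂ) (s : Site L → Fin d) :
    contract (ghz φ) L s = ∑ k : Fin m, ∏ x : Site L, φ k (s x) := by
  unfold contract
  rw [← Fintype.sum_prod_type' (f := fun h v : Site L → Fin m =>
    ∏ x : Site L, ghz φ (s x) (h (x.1 - 1, x.2)) (h x) (v x) (v (x.1, x.2 - 1)))]
  symm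
  refine Finset.sum_of_injOn (fun k : Fin m => ((fun _ => k, fun _ => k) :
    (Site L → Fin m) × (Site L → Fin m))) ?_ ?_ ?_ ?_
  · intro k _ l _ hkl
    exact congrFun (congrArg Prod.fst hkl) (0, 0)
  · intro k _; simp
  · rintro ⟨h, v⟩ _ hn
    by_contra hne
    apply hn
    have hall := Finset.prod_ne_zero_iff.1 hne
    have h3 : ∀ x : Site L, h (x.1 - 1, x.2) = h x ∧ v x = h x ∧ v (x.1, x.2 - 1) = h x := by
      intro x
      by_contra hc
      exact hall x (Finset.mem_univ x) (by unfold ghz; rw [if_neg hc])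
    have h4 := const_of_shift h (fun x => (h3 x).1) (fun x => by
      rw [← (h3 (x.1, x.2 - 1)).2.1, (h3 x).2.2])
    refine ⟨h (0, 0), by simp, ?_⟩
    refine Prod.ext ?_ ?_
    · funext x; exact (h4 x).symm
    · funext x
      show h (0, 0) = v x
      rw [(h3 x).2.1, h4 x]
  · intro k _
    refine Finset.prod_congr rfl fun x _ => ?_
    simp [ghz]

lemma sum_pi_prod {V : Type*} [Fintype V] [DecidableEq V] {d : ℕ} (f : V → Fin d → ℂ) :
    ∑ s : V → Fin d, ∏ x, f x (s x) = ∏ x, ∑ p, f x p := by
  rw [Finset.prod_univ_sum, Fintype.piFinset_univ]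

/-- overlaps -/
noncomputable def Gm {m d : ℕ} (φ : Fin m → Fin d → ℂ) (k l : Fin m) : ℂ :=
  ∑ p, φ k p * (starRingEnd ℂ) (φ l p)

lemma normSq_sum_prod {V : Type*} [Fintype V] [DecidableEq V] {m d : ℕ}
    (φ : Fin m → Fin d → ℂ) :
    ((normSq (fun s : V → Fin d => ∑ k : Fin m, ∏ x, φ k (s x)) : ℝ) : ℂ) =
      ∑ k, ∑ l, Gm φ k l ^ Fintype.card V := by
  unfold normSq
  push_cast
  have : ∀ s : V → Fin d, ((‖∑ k : Fin m, ∏ x, φ k (s x)‖ : ℝ) : ℂ) ^ 2 =
      ∑ k, ∑ l, ∏ x, (φ k (s x) * (starRingEnd ℂ) (φ l (s x))) := by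
    intro s
    rw [← Complex.conj_mul', mul_comm, map_sum, Finset.sum_mul_sum]
    refine Finset.sum_congr rfl fun k _ => Finset.sum_congr rfl fun l _ => ?_
    rw [map_prod, ← Finset.prod_mul_distrib]
  rw [Finset.sum_congr rfl fun s _ => this s, Finset.sum_comm]
  refine Finset.sum_congr rfl fun k _ => ?_
  rw [Finset.sum_comm]
  refine Finset.sum_congr rfl fun l _ => ?_
  rw [sum_pi_prod (fun _ p => φ k p * (starRingEnd ℂ) (φ l p))]
  unfold Gm
  rw [Finset.prod_const, Finset.card_univ]

open Classical in
lemma rdm_sum_prod {V ι : Type*} [Fintype V] [DecidableEq V] [Unique ι] {m d : ℕ}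
    (j : ι → V) (φ : Fin m → Fin d → ℂ) (a b : ι → Fin d) :
    rdm j (fun s : V → Fin d => ∑ k : Fin m, ∏ x, φ k (s x)) a b =
      ∑ k, ∑ l, φ k (a default) * (starRingEnd ℂ) (φ l (b default)) *
        Gm φ k l ^ (Fintype.card V - 1) := by
  have key : ∀ k l : Fin m, (∑ s : V → Fin d, ∑ t : V → Fin d,
      if Ker j a b s t then (∏ x, φ k (s x)) * (starRingEnd ℂ) (∏ x, φ l (t x)) else 0) =
      φ k (a default) * (starRingEnd ℂ) (φ l (b default)) * Gm φ k l ^ (Fintype.card V - 1) := by
    intro k l
    let w : V → Fin d → Fin d → ℂ := fun x p q =>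
      if x = j default then (if p = a default ∧ q = b default then
        φ k p * (starRingEnd ℂ) (φ l q) else 0) else
        (if p = q then φ k p * (starRingEnd ℂ) (φ l q) else 0)
    have h1 : ∀ s t : V → Fin d, (if Ker j a b s t then
        (∏ x, φ k (s x)) * (starRingEnd ℂ) (∏ x, φ l (t x)) else 0) = ∏ x, w x (s x) (t x) := by
      intro s t
      by_cases hK : Ker j a b s t
      · rw [if_pos hK, map_prod, ← Finset.prod_mul_distrib]
        refine Finset.prod_congr rfl fun x _ => ?_
        by_cases hx : x = j default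
        · simp only [w, if_pos hx]
          rw [if_pos]
          rw [hx]
          exact ⟨hK.1 default, hK.2.1 default⟩
        · simp only [w, if_neg hx]
          rw [if_pos]
          refine hK.2.2 x fun i => ?_
          rw [Unique.eq_default i]
          exact fun h => hx h.symm
      · rw [if_neg hK]
        symm
        by_contra hne
        apply hK
        have hall := Finset.prod_ne_zero_iff.1 hne
        have h0 : s (j default) = a default ∧ t (j default) = b default := by
          by_contra hc
          apply hall (j default) (Finset.mem_univ _)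
          simp only [w, if_true]
          rw [if_neg hc]
        refine ⟨fun i => by rw [Unique.eq_default i]; exact h0.1,
          fun i => by rw [Unique.eq_default i]; exact h0.2, fun v hv => ?_⟩
        by_contra hc
        apply hall v (Finset.mem_univ _)
        simp only [w]
        rw [if_neg (fun h => hv default h.symm), if_neg hc]
    simp_rw [h1]
    have h2 : ∀ s : V → Fin d, ∑ t : V → Fin d, ∏ x, w x (s x) (t x) =
        ∏ x, ∑ q, w x (s x) q := fun s => sum_pi_prod (fun x q => w x (s x) q)
    simp_rw [h2]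
    rw [sum_pi_prod (fun x p => ∑ q, w x p q)]
    rw [← Finset.mul_prod_erase Finset.univ _ (Finset.mem_univ (j default))]
    congr 1
    · have : ∀ p q, w (j default) p q = if p = a default then (if q = b default then
          φ k p * (starRingEnd ℂ) (φ l q) else 0) else 0 := by
        intro p q
        simp only [w, if_true]
        split_ifs <;> simp_all
      simp_rw [this]
      simp
    · have : ∀ x ∈ Finset.univ.erase (j default), (∑ p, ∑ q, w x p q) = Gm φ k l := by
        intro x hx
        have hx' : x ≠ j default := (Finset.mem_erase.1 hx).1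
        simp only [w, if_neg hx']
        simp [Gm]
      rw [Finset.prod_congr rfl this, Finset.prod_const, Finset.card_erase_of_mem (Finset.mem_univ _),
        Finset.card_univ]
  rw [rdm_apply]
  have hexp : ∀ s t : V → Fin d, (if Ker j a b s t then
      (∑ k : Fin m, ∏ x, φ k (s x)) * (starRingEnd ℂ) (∑ k : Fin m, ∏ x, φ k (t x)) else 0) =
      ∑ k, ∑ l, if Ker j a b s t then
        (∏ x, φ k (s x)) * (starRingEnd ℂ) (∏ x, φ l (t x)) else 0 := by
    intro s t
    split_ifs
    · rw [map_sum, Finset.sum_mul_sum]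
    · simp
  rw [Finset.sum_congr rfl fun s _ => Finset.sum_congr rfl fun t _ => hexp s t]
  rw [Finset.sum_congr rfl fun s _ => Finset.sum_comm, Finset.sum_comm]
  refine Finset.sum_congr rfl fun k _ => ?_
  rw [Finset.sum_congr rfl fun s _ => Finset.sum_comm, Finset.sum_comm]
  refine Finset.sum_congr rfl fun l _ => ?_
  exact key k l

end Pool.Agent.TH137.OS
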