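import Pool.Agent.TH137.OS.Dm

/-! # One-site regions: positivity and asymptotics -/

set_option autoImplicit false

open scoped BigOperators Matrix ComplexOrder
open Finset Pool.Agent.H4R2

namespace Pool.Agent.TH137.OS

section
variable {V ι : Type*} [Fintype V] [DecidableEq V] [Unique ι] {d : ℕ}

open Classical in
lemma rdm_one (j : ι → V) (ψ : (V → Fin d) → ℂ) (a b : ι → Fin d) :
    rdm j ψ a b = ∑ s : V → Fin d, if s (j default) = a default then
      ψ s * (starRingEnd ℂ) (ψ (Function.update s (j default) (b default))) else 0 := by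
  rw [rdm_apply]
  refine Finset.sum_congr rfl fun s _ => ?_
  have h : ∀ t : V → Fin d, Ker j a b s t ↔
      (t = Function.update s (j default) (b default) ∧ s (j default) = a default) := by
    intro t
    constructor
    · intro hK
      refine ⟨?_, hK.1 default⟩
      funext v
      by_cases hv : v = j default
      · subst hv; rw [Function.update_self]; exact hK.2.1 default
      · rw [Function.update_of_ne hv]
        exact (hK.2.2 v fun i => by rw [Unique.eq_default i]; exact fun h => hv h.symm).symm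
    · rintro ⟨rfl, h2⟩
      refine ⟨fun i => by rw [Unique.eq_default i]; exact h2,
        fun i => by rw [Unique.eq_default i, Function.update_self], fun v hv => ?_⟩
      rw [Function.update_of_ne (fun h => hv default h.symm)]
  by_cases h2 : s (j default) = a default
  · rw [if_pos h2]
    have : ∀ t : V → Fin d, (if Ker j a b s t then ψ s * (starRingEnd ℂ) (ψ t) else 0) =
        if t = Function.update s (j default) (b default) then ψ s * (starRingEnd ℂ) (ψ t) else 0 := by
      intro t
      by_cases h3 : t = Function.update s (j default) (b default)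
      · rw [if_pos h3, if_pos ((h t).2 ⟨h3, h2⟩)]
      · rw [if_neg h3, if_neg (fun hK => h3 ((h t).1 hK).1)]
    simp_rw [this]
    simp
  · rw [if_neg h2]
    exact Finset.sum_eq_zero fun t _ => if_neg fun hK => h2 ((h t).1 hK).2

/-- the one-site reduced density matrix as a matrix indexed by the symbols -/
noncomputable def Pm (j : ι → V) (ψ : (V → Fin d) → ℂ) : Matrix (Fin d) (Fin d) ℂ :=
  fun a b => rdm j ψ (fun _ => a) (fun _ => b)

lemma Pm_posSemidef (hd : 0 < d) (j : ι → V) (ψ : (V → Fin d) → ℂ) : (Pm j ψ).PosSemidef := by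
  classical
  let z : Fin d := ⟨0, hd⟩
  let Bm : Matrix (Fin d) (V → Fin d) ℂ := fun a r =>
    if r (j default) = z then ψ (Function.update r (j default) a) else 0
  have : Pm j ψ = Bm * Bmᴴ := by
    ext a b
    rw [Matrix.mul_apply]
    unfold Pm
    rw [rdm_one]
    have h1 : ∀ r : V → Fin d, Bm a r * Bmᴴ r b = if r (j default) = z then
        ψ (Function.update r (j default) a) * (starRingEnd ℂ) (ψ (Function.update r (j default) b))
        else 0 := by
      intro r
      rw [Matrix.conjTranspose_apply]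
      simp only [Bm]
      split_ifs
      · rfl
      · simp
    simp_rw [h1]
    rw [← Finset.sum_filter, ← Finset.sum_filter]
    refine Finset.sum_nbij' (fun s => Function.update s (j default) z)
      (fun r => Function.update r (j default) a) ?_ ?_ ?_ ?_ ?_
    · intro s _; simp
    · intro r _; simp
    · intro s hs
      simp only [Finset.mem_filter, Finset.mem_univ, true_and] at hs
      rw [Function.update_idem, ← hs, Function.update_eq_self]
    · intro r hr
      simp only [Finset.mem_filter, Finset.mem_univ, true_and] at hr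
      rw [Function.update_idem, ← hr, Function.update_eq_self]
    · intro s hs
      simp only [Finset.mem_filter, Finset.mem_univ, true_and] at hs
      rw [Function.update_idem, Function.update_idem]
      congr 2
      rw [← hs, Function.update_eq_self]
  rw [this]
  exact Matrix.posSemidef_self_mul_conjTranspose Bm

lemma Pm_trace (j : ι → V) (ψ : (V → Fin d) → ℂ) : (Pm j ψ).trace = ((normSq ψ : ℝ) : ℂ) := by
  classical
  unfold Matrix.trace normSq
  push_cast
  simp only [Matrix.diag_apply]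
  unfold Pm
  simp_rw [rdm_one]
  rw [Finset.sum_comm]
  refine Finset.sum_congr rfl fun s _ => ?_
  have : ∀ a : Fin d, (if s (j default) = a then
      ψ s * (starRingEnd ℂ) (ψ (Function.update s (j default) a)) else 0) =
      if a = s (j default) then ((‖ψ s‖ : ℝ) : ℂ) ^ 2 else 0 := by
    intro a
    by_cases h : s (j default) = a
    · rw [if_pos h, if_pos h.symm, ← h, Function.update_eq_self, ← Complex.conj_mul', mul_comm]
    · rw [if_neg h, if_neg (fun h' => h h'.symm)]
  simp_rw [this]
  simp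

end

/-- asymptotics of the superposition of product states -/
lemma asym {V ι : Type*} [Fintype V] [DecidableEq V] [Unique ι] {m d : ℕ} (hm : 1 ≤ m)
    (j : ι → V) (φ : Fin m → Fin d → ℂ) (c : ℝ) (hc0 : 0 ≤ c) (hc1 : c ≤ 1)
    (h1 : ∀ k, Gm φ k k = 1) (h2 : ∀ k l, k ≠ l → ‖Gm φ k l‖ ≤ c)
    (hV : 1 ≤ Fintype.card V) (η : ℝ) (hη : (m : ℝ) ^ 2 * c ^ (Fintype.card V - 1) ≤ η)
    (hη1 : η ≤ 1 / 2) :
    (1 / 2 ≤ normSq (fun s : V → Fin d => ∑ k : Fin m, ∏ x, φ k (s x))) ∧
    ∀ a b : ι → Fin d,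
      ‖((normSq (fun s : V → Fin d => ∑ k : Fin m, ∏ x, φ k (s x)) : ℝ) : ℂ)⁻¹ *
        rdm j (fun s : V → Fin d => ∑ k : Fin m, ∏ x, φ k (s x)) a b -
        (m : ℂ)⁻¹ * ∑ k, φ k (a default) * (starRingEnd ℂ) (φ k (b default))‖ ≤ 4 * η := by
  classical
  set Ψ := (fun s : V → Fin d => ∑ k : Fin m, ∏ x, φ k (s x)) with hΨ
  set N := Fintype.card V with hN
  have hmR : (1 : ℝ) ≤ m := by exact_mod_cast hm
  have hφ : ∀ k p, ‖φ k p‖ ≤ 1 := by
    intro k p
    have e1 : ∑ q, ‖φ k q‖ ^ 2 = 1 := by
      have := h1 k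
      unfold Gm at this
      have h3 : ((∑ q, ‖φ k q‖ ^ 2 : ℝ) : ℂ) = 1 := by
        rw [← this]
        push_cast
        refine Finset.sum_congr rfl fun q _ => ?_
        rw [← Complex.conj_mul', mul_comm]
      exact_mod_cast h3
    have e2 : ‖φ k p‖ ^ 2 ≤ 1 := by
      rw [← e1]
      exact Finset.single_le_sum (f := fun q => ‖φ k q‖ ^ 2) (fun q _ => by positivity)
        (Finset.mem_univ p)
    nlinarith [norm_nonneg (φ k p)]
  have hpowle : c ^ N ≤ c ^ (N - 1) := pow_le_pow_of_le_one hc0 hc1 (by omega)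
  have hcard : ∀ f : Fin m → Fin m → ℂ, (∀ k l, ‖f k l‖ ≤ c ^ (N - 1)) →
      ‖∑ k, ∑ l, f k l‖ ≤ η := by
    intro f hf
    calc ‖∑ k, ∑ l, f k l‖ ≤ ∑ k, ∑ l, ‖f k l‖ :=
          (norm_sum_le _ _).trans (Finset.sum_le_sum fun k _ => norm_sum_le _ _)
      _ ≤ ∑ _k : Fin m, ∑ _l : Fin m, c ^ (N - 1) :=
          Finset.sum_le_sum fun k _ => Finset.sum_le_sum fun l _ => hf k l
      _ = (m : ℝ) ^ 2 * c ^ (N - 1) := by simp; ring
      _ ≤ η := hη
  -- norm
  have hn : ‖((normSq Ψ : ℝ) : ℂ) - m‖ ≤ η := by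
    rw [normSq_sum_prod]
    have e : (∑ k, ∑ l, Gm φ k l ^ N) - (m : ℂ) =
        ∑ k, ∑ l, (Gm φ k l ^ N - if k = l then 1 else 0) := by
      simp_rw [Finset.sum_sub_distrib]
      simp
    rw [e]
    apply hcard
    intro k l
    by_cases hkl : k = l
    · subst hkl; rw [h1]; simp; positivity
    · rw [if_neg hkl, sub_zero, norm_pow]
      exact (pow_le_pow_left₀ (norm_nonneg _) (h2 k l hkl) N).trans hpowle
  have hnr : |normSq Ψ - m| ≤ η := by
    have : ((normSq Ψ : ℝ) : ℂ) - m = ((normSq Ψ - m : ℝ) : ℂ) := by push_cast; ring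
    rw [this, Complex.norm_real] at hn
    exact hn
  have hnlow : 1 / 2 ≤ normSq Ψ := by
    have := (abs_le.1 hnr).1
    linarith
  refine ⟨hnlow, fun a b => ?_⟩
  set X := ∑ k, φ k (a default) * (starRingEnd ℂ) (φ k (b default)) with hX
  have hr : ‖rdm j Ψ a b - X‖ ≤ η := by
    rw [hΨ, rdm_sum_prod]
    have e : (∑ k, ∑ l, φ k (a default) * (starRingEnd ℂ) (φ l (b default)) *
        Gm φ k l ^ (N - 1)) - X = ∑ k, ∑ l, (φ k (a default) * (starRingEnd ℂ) (φ l (b default)) *
        Gm φ k l ^ (N - 1) -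
        if k = l then φ k (a default) * (starRingEnd ℂ) (φ l (b default)) else 0) := by
      simp_rw [Finset.sum_sub_distrib]
      simp [hX]
    rw [e]
    apply hcard
    intro k l
    by_cases hkl : k = l
    · subst hkl; rw [h1]; simp; positivity
    · rw [if_neg hkl, sub_zero, norm_mul, norm_mul, norm_pow, RCLike.norm_conj]
      calc ‖φ k (a default)‖ * ‖φ l (b default)‖ * ‖Gm φ k l‖ ^ (N - 1)
          ≤ 1 * 1 * c ^ (N - 1) := by
            apply mul_le_mul _ (pow_le_pow_left₀ (norm_nonneg _) (h2 k l hkl) _) (by positivity)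
              (by norm_num)
            exact mul_le_mul (hφ _ _) (hφ _ _) (norm_nonneg _) (by norm_num)
        _ = c ^ (N - 1) := by ring
  have hXm : ‖(m : ℂ)⁻¹ * X‖ ≤ 1 := by
    rw [norm_mul, norm_inv, Complex.norm_natCast]
    have : ‖X‖ ≤ m := by
      calc ‖X‖ ≤ ∑ k, ‖φ k (a default) * (starRingEnd ℂ) (φ k (b default))‖ := norm_sum_le _ _
        _ ≤ ∑ _k : Fin m, (1 : ℝ) := by
            refine Finset.sum_le_sum fun k _ => ?_
            rw [norm_mul, RCLike.norm_conj]
            nlinarith [hφ k (a default), hφ k (b default), norm_nonneg (φ k (a default)),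
              norm_nonneg (φ k (b default))]
        _ = m := by simp
    rw [inv_mul_le_iff₀ (by linarith)]
    linarith
  have hn0 : ((normSq Ψ : ℝ) : ℂ) ≠ 0 := by
    have : normSq Ψ ≠ 0 := by linarith
    exact_mod_cast this
  have hm0 : (m : ℂ) ≠ 0 := by
    have : (m : ℝ) ≠ 0 := by linarith
    exact_mod_cast this
  have e : ((normSq Ψ : ℝ) : ℂ)⁻¹ * rdm j Ψ a b - (m : ℂ)⁻¹ * X =
      ((normSq Ψ : ℝ) : ℂ)⁻¹ * ((rdm j Ψ a b - X) -
        ((m : ℂ)⁻¹ * X) * (((normSq Ψ : ℝ) : ℂ) - m)) := by
    field_simp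
    ring
  rw [e, norm_mul, norm_inv, Complex.norm_real, Real.norm_of_nonneg (normSq_nonneg Ψ)]
  have h5 : ‖(rdm j Ψ a b - X) - ((m : ℂ)⁻¹ * X) * (((normSq Ψ : ℝ) : ℂ) - m)‖ ≤ 2 * η := by
    refine (norm_sub_le _ _).trans ?_
    rw [norm_mul]
    have := mul_le_mul hXm hn (norm_nonneg _) (by norm_num : (0 : ℝ) ≤ 1)
    linarith
  rw [inv_mul_le_iff₀ (by linarith)]
  have hη0 : 0 ≤ η := (norm_nonneg _).trans hn
  nlinarith

end Pool.Agent.TH137.OS
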